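import Pool.Agent.Lib.MP_eee7a8_ag.TB.Iface4

/-!
# Module LINSYS
-/

open Matrix

namespace Pool.Agent.Lib.MP_eee7a8_ag.TB.C34

open Pool.Agent.Lib.MP_eee7a8_ag.TB

set_option linter.unusedSectionVars false

section

variable {G : Subgroup SLZ} {K : Type} [Field K] [Algebra ℂ K] (L : Lam G K)
  {ι : Type} [Fintype ι] (T : Fam ι)

/-- change of coefficients -/
noncomputable def toC (ι : Type) : LP ι →+* AddMonoidAlgebra ℂ (ι → ℤ) :=
  AddMonoidAlgebra.mapRingHom (ι → ℤ) (Nat.castRingHom ℂ)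

theorem toC_coeff (p : LP ι) (m : ι → ℤ) : (toC ι p).coeff m = (p.coeff m : ℂ) := by
  rw [toC, AddMonoidAlgebra.coeff_mapRingHom]
  rfl

theorem evN_eq (p : LP ι) : L.evN T p = L.ev T (toC ι p) := by
  unfold Lam.evN Lam.ev
  have h : (toC ι p).coeff = Finsupp.mapRange (fun n : ℕ => (n : ℂ)) Nat.cast_zero p.coeff := by
    ext m
    rw [toC_coeff, Finsupp.mapRange_apply]
  rw [h, Finsupp.sum_mapRange_index]
  · refine Finsupp.sum_congr fun m _ => ?_
    rw [map_natCast]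
  · intro a
    rw [map_zero, zero_mul]

variable {L T}

theorem ev_prod_arcs (hc : L.IsChart T) (P : Cusp → Cusp → LP ι)
    (hP : ∀ a b, L.evN T (P a b) = L.lam a b) (l : List (Cusp × Cusp)) :
    L.ev T (toC ι (l.map (fun a => P a.1 a.2)).prod) = (l.map fun p => L.lam p.1 p.2).prod := by
  induction l with
  | nil => rw [List.map_nil, List.prod_nil, map_one, hc.one]; rfl
  | cons x l ih =>
    rw [List.map_cons, List.prod_cons, map_mul, hc.mul, ih, ← evN_eq, hP, List.map_cons,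
      List.prod_cons]

theorem ev_prod_loops (hc : L.IsChart T) (P : Cusp → Cusp → LP ι)
    (ht : ∀ h ∈ G, 2 < |h.1.trace| → ∀ k : ℕ, 1 ≤ k →
      ∃ p : LP ι, IsTrP G T P h k p ∧ L.evN T p = L.tr (h ^ k))
    (htk : ∀ h ∈ G, 2 < |h.1.trace| → ∀ k : ℕ, 1 ≤ k → L.tr (h ^ k) = tk (L.tr h) k)
    (l : List (SLZ × ℕ)) (hl : ∀ x ∈ l, IsLoop G x.1 ∧ 1 ≤ x.2) :
    ∃ q : List (LP ι), List.Forall₂ (fun l x => IsTrP G T P l.1 l.2 x) l q ∧
      L.ev T (toC ι q.prod) = (l.map (fun l => tk (L.tr l.1) l.2)).prod := by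
  induction l with
  | nil =>
    refine ⟨[], List.Forall₂.nil, ?_⟩
    rw [List.prod_nil, map_one, hc.one]
    rfl
  | cons x l ih =>
    obtain ⟨q, hq1, hq2⟩ := ih fun y hy => hl y (List.mem_cons_of_mem _ hy)
    obtain ⟨hx1, hx2⟩ := hl x List.mem_cons_self
    obtain ⟨p, hp1, hp2⟩ := ht x.1 hx1.mem hx1.hyp x.2 hx2
    refine ⟨p :: q, List.Forall₂.cons hp1 hq1, ?_⟩
    rw [List.prod_cons, map_mul, hc.mul, hq2, ← evN_eq, hp2, htk x.1 hx1.mem hx1.hyp x.2 hx2,
      List.map_cons, List.prod_cons]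

theorem ev_smul (hc : L.IsChart T) (c : ℂ) (p : AddMonoidAlgebra ℂ (ι → ℤ)) :
    L.ev T (AddMonoidAlgebra.single 0 c * p) = algebraMap ℂ K c * L.ev T p := by
  rw [hc.mul]
  congr 1
  unfold Lam.ev
  rw [AddMonoidAlgebra.coeff_single, Finsupp.sum_single_index (by rw [map_zero, zero_mul])]
  simp [Lam.mon]

theorem ev_sum (hc : L.IsChart T) {n : ℕ} (f : Fin n → AddMonoidAlgebra ℂ (ι → ℤ)) :
    L.ev T (∑ i, f i) = ∑ i, L.ev T (f i) := by
  have h0 : L.ev T 0 = 0 := by
    have h := hc.add 0 0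
    rw [add_zero] at h
    exact left_eq_add.1 h
  let φ : AddMonoidAlgebra ℂ (ι → ℤ) →+ K :=
    { toFun := L.ev T, map_zero' := h0, map_add' := hc.add }
  exact map_sum φ f Finset.univ

end

theorem linsys (hPP : PPStatement) (hpol : PolStatement) (htr : TrPolStatement)
    (hch : ChartStatement) (htrace : TraceStatement) : LinsysStatement := by
  intro G K _ _ L hG n β hβ c i₀
  have hGe : ∀ a b, ¬ Ge G none a b := by
    rintro a b ⟨p, hp, -⟩
    exact absurd hp (by simp)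
  have hSim : ∀ a b, Sim G none a b → a = b := by
    intro a b h
    induction h with
    | rel x y h => exact absurd h (hGe x y)
    | refl x => rfl
    | symm x y _ ih => exact ih.symm
    | trans x y z _ _ h1 h2 => exact h1.trans h2
  have hadm : Adm G none := fun p hp => absurd hp (by simp)
  have hB : ∀ γ ∈ List.ofFn β, SysE G none γ ∧ Touch G none γ := by
    intro γ _
    refine ⟨⟨fun p _ c d h => absurd h (hGe c d), fun p hp h => γ.ne p hp (hSim _ _ h),
      fun l _ c d h => absurd h (hGe c d)⟩, fun p hp => absurd hp (by simp)⟩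
  obtain ⟨m, T, E, hT, -, hE⟩ := hPP G hG none hadm (List.ofFn β) hB (β i₀)
    (by rw [List.mem_ofFn]; exact ⟨i₀, rfl⟩)
  have hTri : T.IsTri G := hT.toIsTri
  refine ⟨m, T, E, hTri, ?_⟩
  have hc := hch G K L hG (Fin m) T hTri
  obtain ⟨P, hP1, hP2⟩ := hpol G K L hG (Fin m) T hTri
  have hsys : ∀ γ : Sys G, ∃ p : LP (Fin m), IsSysP G T P γ p ∧ L.ev T (toC (Fin m) p) = L.IS γ := by
    intro γ
    obtain ⟨q, hq1, hq2⟩ := ev_prod_loops hc P
      (fun h hh h2 k hk => (htr G K L hG (Fin m) T hTri P hP1 hP2 h hh h2 k hk).2)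
      (fun h hh h2 k hk => (htrace G K L hG h hh h2).2.2.1 k hk) γ.loops γ.loop
    refine ⟨(γ.arcs.map (fun a => P a.1 a.2)).prod * q.prod, ⟨q, hq1, rfl⟩, ?_⟩
    rw [map_mul, hc.mul, ev_prod_arcs hc P hP2, hq2]
    rfl
  choose p hp1 hp2 using fun i => hsys (β i)
  intro r hr
  have hr2 : r = ∑ i, AddMonoidAlgebra.single 0 (c i) * toC (Fin m) (p i) := by
    apply hc.inj
    rw [hr, ev_sum hc]
    refine Finset.sum_congr rfl fun i _ => ?_
    rw [ev_smul hc, hp2]
  have hcoef : ∀ i, ((p i).coeff E : ℂ) = if i = i₀ then 1 else 0 := by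
    intro i
    have hmem : β i ∈ List.ofFn β := by rw [List.mem_ofFn]; exact ⟨i, rfl⟩
    obtain ⟨h1, h3⟩ := hE P hP1 (β i) hmem (p i) (hp1 i)
    by_cases hi : i = i₀
    · subst hi
      rw [if_pos rfl]
      have := h3 rfl 0 (zero_mem _)
      rw [add_zero, if_pos rfl] at this
      rw [this, Nat.cast_one]
    · rw [if_neg hi]
      have := h1 0 (zero_mem _)
      rw [add_zero] at this
      by_contra hne
      exact hβ i i₀ hi (this (by
        intro h0
        apply hne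
        rw [h0, Nat.cast_zero]))
  rw [hr2, AddMonoidAlgebra.coeff_sum, Finsupp.finsetSum_apply]
  have hterm : ∀ i, (AddMonoidAlgebra.single 0 (c i) * toC (Fin m) (p i)).coeff E =
      c i * if i = i₀ then 1 else 0 := by
    intro i
    rw [← hcoef, ← toC_coeff]
    have := AddMonoidAlgebra.coeff_single_zero_mul (toC (Fin m) (p i)) (c i) E
    exact this
  rw [Finset.sum_congr rfl fun i _ => hterm i]
  simp

end Pool.Agent.Lib.MP_eee7a8_ag.TB.C34
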