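import Pool.Agent.Lib.MP_eee7a8_ag.TB.Iface4

/-!
# Module POLY

Walks in `E` of length `n` between the ends of an edge `ab` of the triangulation: the third vertex
of the triangle on the side of the first step lies on the walk.
-/

open Matrix

namespace Pool.Agent.Lib.MP_eee7a8_ag.TB.C34

open Pool.Agent.Lib.MP_eee7a8_ag.TB

/-- walks of length `n` -/
def Wk (E : Cusp → Cusp → Prop) : ℕ → Cusp → Cusp → Prop
  | 0, a, b => a = b
  | n + 1, a, b => ∃ c, E a c ∧ Wk E n c b

theorem Wk.snoc {E : Cusp → Cusp → Prop} : ∀ (n : ℕ) (a b c : Cusp), Wk E n a b → E b c →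
    Wk E (n + 1) a c
  | 0, a, b, c, h, h' => by
    subst h
    exact ⟨c, h', rfl⟩
  | n + 1, a, b, c, h, h' => by
    obtain ⟨d, h1, h2⟩ := h
    exact ⟨d, h1, Wk.snoc n d b c h2 h'⟩

theorem Wk.trans {E : Cusp → Cusp → Prop} : ∀ (n m : ℕ) (a b c : Cusp), Wk E n a b → Wk E m b c →
    ∃ k, Wk E k a c
  | 0, m, a, b, c, h, h' => by
    subst h
    exact ⟨m, h'⟩
  | n + 1, m, a, b, c, h, h' => by
    obtain ⟨d, h1, h2⟩ := h
    obtain ⟨k, hk⟩ := Wk.trans n m d b c h2 h'
    exact ⟨k + 1, d, h1, hk⟩

theorem Wk.symm {E : Cusp → Cusp → Prop} (hs : ∀ a b, E a b → E b a) :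
    ∀ (n : ℕ) (a b : Cusp), Wk E n a b → Wk E n b a
  | 0, a, b, h => by
    subst h
    rfl
  | n + 1, a, b, h => by
    obtain ⟨d, h1, h2⟩ := h
    exact Wk.snoc n b d a (Wk.symm hs n d b h2) (hs a d h1)

theorem exists_wk {E : Cusp → Cusp → Prop} (hs : ∀ a b, E a b → E b a) (a b : Cusp)
    (h : Relation.EqvGen E a b) : ∃ n, Wk E n a b := by
  induction h with
  | rel x y h => exact ⟨1, y, h, rfl⟩
  | refl x => exact ⟨0, rfl⟩
  | symm x y _ ih =>
    obtain ⟨n, hn⟩ := ih
    exact ⟨n, Wk.symm hs n _ _ hn⟩
  | trans x y z _ _ ih1 ih2 =>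
    obtain ⟨n, hn⟩ := ih1
    obtain ⟨m, hm⟩ := ih2
    exact Wk.trans n m _ _ _ hn hm

theorem E_symm {G : Subgroup SLZ} {ι : Type} {T : Fam ι} {a b : Cusp} (h : T.E G a b) :
    T.E G b a := by
  obtain ⟨i, g, hg, h | h⟩ := h
  · exact ⟨i, g, hg, Or.inr ⟨h.1, h.2⟩⟩
  · exact ⟨i, g, hg, Or.inl ⟨h.1, h.2⟩⟩

theorem E_ne {G : Subgroup SLZ} {ι : Type} {T : Fam ι} (hT : T.NonCross G) {a b : Cusp}
    (h : T.E G a b) : a ≠ b := by
  obtain ⟨i, g, -, h⟩ := h
  intro hab
  have key : g • T.s i = g • T.t i := by
    rcases h with h | h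
    · rw [h.1, h.2, hab]
    · rw [h.1, h.2, hab]
  have h3 : dt (T.s i) (T.t i) = 0 := by
    have h1 := dt_smul g (T.s i) (T.t i)
    rw [key, dt_self] at h1
    have h2 := eps_ne_zero g (T.s i)
    have h4 := eps_ne_zero g (T.t i)
    by_contra hne
    exact (mul_ne_zero (mul_ne_zero h2 h4) hne) h1.symm
  exact hT.ne i (dt_eq_zero.1 h3)

theorem poly : PolyStatement := by
  intro G _ ι _ T hT E hE hcl
  have hsub : ∀ a b, E a b → T.E G a b := hE.sub
  have hsym : ∀ a b, E a b → E b a := fun a b h =>
    hE.inv a b b a ⟨1, G.one_mem, Or.inr ⟨one_smul' a, one_smul' b⟩⟩ h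
  have hnc : ∀ a b c d, T.E G a b → T.E G c d → ¬ Cross a b c d := hT.nocross
  have main : ∀ n : ℕ, ∀ a b, T.E G a b → Wk E n a b → E a b := by
    intro n
    induction n using Nat.strong_induction_on with
    | _ n ih =>
      intro a b hab hw
      -- walking along a separated vertex
      have walk : ∀ t, T.E G a t → T.E G t b → ∀ m k, m + k = n → 0 < k → ∀ z, Cross a t z b →
          Wk E k a z → Wk E m z b → E a b := by
        intro t hat htb m
        induction m with
        | zero =>
          intro k _ _ z hz _ hzb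
          exfalso
          have hzb' : z = b := hzb
          subst hzb'
          unfold Cross at hz
          nlinarith [mul_self_nonneg (dt a z * dt t z)]
        | succ m ihm =>
          intro k hk hk0 z hz haz hzb
          obtain ⟨z', hzz', hz'b⟩ := hzb
          have haz' : Wk E (k + 1) a z' := Wk.snoc k a z z' haz hzz'
          by_cases h1 : z' = a
          · subst h1
            exact ih m (by omega) _ _ hab hz'b
          by_cases h2 : z' = t
          · subst h2
            have hm : m ≠ 0 := by
              rintro rfl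
              exact E_ne hT.toNonCross htb hz'b
            exact hcl a z' b (ih (k + 1) (by omega) _ _ hat haz') (ih m (by omega) _ _ htb hz'b) hab
          refine ihm (k + 1) (by omega) (by omega) z' ?_ haz' hz'b
          have hn := hnc a t z z' hat (hsub z z' hzz')
          unfold Cross at hn hz ⊢
          push Not at hn
          have d1 : dt a z' ≠ 0 := dt_ne_zero (Ne.symm h1)
          have d2 : dt t z' ≠ 0 := dt_ne_zero (Ne.symm h2)
          have e1 : dt a z * dt t z ≠ 0 := by
            intro h0
            rw [h0, zero_mul] at hz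
            exact lt_irrefl _ hz
          have e2 : dt a z' * dt t z' ≠ 0 := mul_ne_zero d1 d2
          have hpos : 0 < (dt a z * dt t z) * (dt a z' * dt t z') :=
            lt_of_le_of_ne hn (Ne.symm (mul_ne_zero e1 e2))
          generalize dt a z * dt t z = A at *
          generalize dt a z' * dt t z' = B at *
          generalize dt a b * dt t b = C at *
          rcases pos_and_pos_or_neg_and_neg_of_mul_pos hpos with ⟨hA, hB⟩ | ⟨hA, hB⟩
          · exact mul_neg_of_pos_of_neg hB (by
              by_contra hC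
              push Not at hC
              exact absurd (mul_nonneg hA.le hC) (not_le.2 hz))
          · exact mul_neg_of_neg_of_pos hB (by
              by_contra hC
              push Not at hC
              exact absurd (mul_nonneg_of_nonpos_of_nonpos hA.le hC) (not_le.2 hz))
      cases n with
      | zero => exact absurd hw (E_ne hT.toNonCross hab)
      | succ n =>
        obtain ⟨z, haz, hzb⟩ := hw
        by_cases hz : z = b
        · subst hz; exact haz
        have hza : z ≠ a := (E_ne hT.toNonCross (hsub a z haz)).symm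
        -- the third vertex on the side of `z`
        obtain ⟨x, f, hxa, hxb, hfa, hfb, hxf⟩ := hT.tri a b hab
        have ht : ∃ t, T.E G a t ∧ T.E G t b ∧ 0 < (dt a z * dt b z) * (dt a t * dt b t) := by
          have e1 : dt a z * dt b z ≠ 0 :=
            mul_ne_zero (dt_ne_zero (Ne.symm hza)) (dt_ne_zero (Ne.symm hz))
          have hc : (dt a x * dt b x) * (dt a f * dt b f) < 0 := by
            have := cross_swap.1 hxf
            exact this
          rcases mul_neg_iff.1 hc with ⟨h1, h2⟩ | ⟨h1, h2⟩ <;> rcases lt_or_gt_of_ne e1 with h3 | h3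
          · exact ⟨f, E_symm hfa, hfb, mul_pos_of_neg_of_neg h3 h2⟩
          · exact ⟨x, E_symm hxa, hxb, mul_pos h3 h1⟩
          · exact ⟨x, E_symm hxa, hxb, mul_pos_of_neg_of_neg h3 h1⟩
          · exact ⟨f, E_symm hfa, hfb, mul_pos h3 h2⟩
        obtain ⟨t, hat, htb, hside⟩ := ht
        by_cases hzt : z = t
        · subst hzt
          exact hcl a z b haz (ih n (by omega) _ _ htb hzb) hab
        refine walk t hat htb n 1 (by omega) one_pos z ?_ ⟨z, haz, rfl⟩ hzb
        have hn := hnc t b z a htb (hsub z a (hsym a z haz))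
        unfold Cross at hn ⊢
        push Not at hn
        rw [dt_symm t a, dt_symm b a] at hn
        have d1 : dt t z ≠ 0 := dt_ne_zero (Ne.symm hzt)
        have d2 : dt b z ≠ 0 := dt_ne_zero (Ne.symm hz)
        have d3 : dt a t ≠ 0 := dt_ne_zero (E_ne hT.toNonCross hat)
        have d4 : dt a b ≠ 0 := dt_ne_zero (E_ne hT.toNonCross hab)
        have hn' : 0 < dt t z * dt b z * (-dt a t * -dt a b) :=
          lt_of_le_of_ne hn (Ne.symm (mul_ne_zero (mul_ne_zero d1 d2)
            (mul_ne_zero (neg_ne_zero.2 d3) (neg_ne_zero.2 d4))))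
        have hp := mul_pos hside hn'
        have e : dt a z * dt b z * (dt a t * dt b t) * (dt t z * dt b z * (-dt a t * -dt a b)) =
            (dt b z * dt a t) ^ 2 * (dt a z * dt t z * (dt a b * dt b t)) := by ring
        rw [e] at hp
        have hq : 0 < dt a z * dt t z * (dt a b * dt b t) := by
          have h5 : 0 < (dt b z * dt a t) ^ 2 := by positivity
          exact (mul_pos_iff_of_pos_left h5).1 hp
        rw [dt_symm t b]
        linarith
  intro a b hab hg
  obtain ⟨n, hn⟩ := exists_wk hsym a b hg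
  exact main n a b hab hn

end Pool.Agent.Lib.MP_eee7a8_ag.TB.C34
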